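import Pool.Agent.helper62.VQ.SpecE
import Pool.Agent.helper62.RS.GLC
import Pool.Agent.helper92.RS.GMG
import Pool.Agent.helper83.RS.GLI
import Pool.Agent.helper62.QU.All

/-!
# Row vqe:HOC (MP_07c750_an): a function on `SL(2, ℝ)` which is locally constant almost everywhere is constant almost everywhere
-/

set_option autoImplicit false

open scoped MatrixGroups ContDiff Topology UpperHalfPlane
open UpperHalfPlane MeasureTheory Filter Set

namespace Pool.Agent.VQE

open Pool.Agent.RS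

theorem HOC_pos : mG.IsOpenPosMeasure := by
  have hGMG : GMG_stmt := GMG GLC
  have hGLI : GLI_stmt := GLI GLC hGMG
  obtain ⟨hlc, hsc, hcpt, -⟩ := GLC
  have := hlc
  have := hsc
  obtain ⟨hdG, hK, hsf, -, -⟩ := hGMG
  have := hsf
  have : IsFiniteMeasureOnCompacts mG := ⟨fun K hK' => hK K hK'⟩
  have : mG.IsMulLeftInvariant := ⟨fun g => hGLI g⟩
  have : (volume : Measure ℍ).IsOpenPosMeasure := QU.A_INV.2.2.1
  refine isOpenPosMeasure_of_mulLeftInvariant_of_compact (dG (Metric.closedBall I 1))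
    (hcpt _ (isCompact_closedBall I 1)) ?_
  rw [(hdG _ Metric.isClosed_closedBall.measurableSet).2]
  exact (Metric.measure_closedBall_pos volume I one_pos).ne'

theorem HOC_conn : IsPreconnected (univ : Set SL(2, ℝ)) := by
  obtain ⟨-, -, -, -, -, -, hk, -, -, -, -, -, -, -, -, hkI, hex, -⟩ := GLC
  have h : (univ : Set SL(2, ℝ)) = (fun x : ℍ × ℝ => toSL2R x.1 * kM x.2) '' univ := by
    refine (eq_univ_of_forall fun g => ?_).symm
    have h1 : ((toSL2R (g • I : ℍ))⁻¹ * g) • I = I := by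
      rw [mul_smul, inv_smul_eq_iff, toSL2R_smul_I]
    obtain ⟨θ, hθ⟩ := hex _ h1
    refine ⟨(g • I, θ), mem_univ _, ?_⟩
    show toSL2R (g • I : ℍ) * kM θ = g
    rw [← hθ, mul_inv_cancel_left]
  rw [h]
  exact isPreconnected_univ.image _
    ((continuous_toSL2R.comp continuous_fst).mul (hk.comp continuous_snd)).continuousOn

theorem HOC_proof (h1 : NMB_stmt) : HOC_stmt := by
  intro u hu hae
  obtain ⟨hnn, hz, hinv, -, -, hmul, hcont, -, -⟩ := h1
  have := HOC_pos
  have hself : ∀ g : SL(2, ℝ), nm (g⁻¹ * g) < 1 / 16000 := by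
    intro g
    rw [inv_mul_cancel, (hz 1).mpr rfl]
    norm_num
  have hopen : ∀ g, IsOpen {g' : SL(2, ℝ) | nm (g⁻¹ * g') < 1 / 16000} := fun g =>
    isOpen_lt (hcont.comp (continuous_const.mul continuous_id)) continuous_const
  have hloc : ∀ g, ∃ c : ℝ, ∀ᵐ g' ∂mG, nm (g⁻¹ * g') < 1 / 16000 → u g' = c := by
    intro g
    have hd : ∃ g1, nm (g⁻¹ * g1) < 1 / 16000 ∧ ∀ᵐ g' ∂mG, nm (g1⁻¹ * g') ≤ 1 / 4000 → u g' = u g1 := by
      by_contra hcon
      refine ((hopen g).measure_pos mG ⟨g, hself g⟩).ne' (measure_mono_null ?_ (ae_iff.mp hae))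
      intro g1 hg1 hg1'
      exact hcon ⟨g1, hg1, hg1'⟩
    obtain ⟨g1, hg1, hg1'⟩ := hd
    refine ⟨u g1, hg1'.mono fun g' h hg' => h ?_⟩
    have e : g1⁻¹ * g' = (g⁻¹ * g1)⁻¹ * (g⁻¹ * g') := by group
    rw [e]
    have h2 := hmul (g⁻¹ * g1)⁻¹ (g⁻¹ * g')
    rw [hinv] at h2
    have h3 := hnn (g⁻¹ * g1)
    have h4 := hnn (g⁻¹ * g')
    nlinarith
  choose c hc using hloc
  have hlc : ∀ g h, nm (g⁻¹ * h) < 1 / 16000 → c h = c g := by
    intro g h hgh
    by_contra hne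
    refine (((hopen g).inter (hopen h)).measure_pos mG ⟨h, hgh, hself h⟩).ne'
      (measure_mono_null ?_ (ae_iff.mp ((hc g).and (hc h))))
    rintro g' ⟨h1, h2⟩ ⟨h3, h4⟩
    exact hne ((h4 h2).symm.trans (h3 h1))
  have hlc' : IsLocallyConstant c := by
    rw [IsLocallyConstant.iff_eventually_eq]
    intro g
    filter_upwards [(hopen g).mem_nhds (hself g)] with h hh
    exact hlc g h hh
  have : PreconnectedSpace SL(2, ℝ) := ⟨HOC_conn⟩
  refine ⟨c 1, ?_⟩
  filter_upwards [hae] with g hg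
  have hcg : u g = c g := by
    by_contra hne
    refine ((hopen g).measure_pos mG ⟨g, hself g⟩).ne' (measure_mono_null ?_ (ae_iff.mp (hg.and (hc g))))
    rintro g' h1 ⟨h2, h3⟩
    have h4 : nm (g⁻¹ * g') < 1 / 16000 := h1
    exact hne ((h2 (by linarith)).symm.trans (h3 h1))
  rw [hcg]
  exact hlc'.apply_eq_of_preconnectedSpace g 1

end Pool.Agent.VQE
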